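import Pool.Agent.H239.MA.Conc

/-!
# MP_57adf2_an, Q2: the limit of `R_N(A)` exists and is strictly positive

Positive answer to Q2. The existence of the limit is the `L²` convergence of the averages (Q1,
which is in the library); the new part is the positivity. Sketch. Colour the primes by the map
`T_p`; a colour is *large* if the sum of the reciprocals of its primes diverges. Call `y ∈ L²`
*nearly fixed* if, for `Q` divisible enough, `T_k y = y` for all the `k ≡ 1` modulo `Q` outside a
set of small relative density.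

* The nearly fixed vectors form a subspace which is stable under the map which clamps the values
  into `[0, 1]`. So the orthogonal projection `f` of `1_A` onto the closure of this subspace has
  values in `[0, 1]`, and `∫ f 1_A ≥ μ(A)²`. The eigenvectors of the Halász type obstruction are
  nearly fixed, so the averages of `T_k (1_A - f)` along every arithmetic progression vanish.
* Choose a nearly fixed `y` close to `f`, a modulus `Q₀` for `y`, and by Poincaré recurrence for
  `T_{Q₀}` a power `Q = Q₀^l` such that `∫ f 1_A · T_Q E(1_A | I) ≥ δ² / 2`, where `I` is the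
  factor of the functions invariant under the large colours and `δ = ∫ f 1_A`.
* Restrict `m` to the integers `≡ 1` modulo `Q` without prime factors of a small colour, and with
  a number of prime factors of each large colour divisible by `φ(Q)`; restrict `n` to `Q n'`, where
  `n'` has no prime factor of a small colour. Then `T_{m+n} 1_A` may be replaced by `f`: for the
  part `1_A - f` this is a Turán-Kubilius argument over the primes of one large colour and of one
  residue class modulo `Q`; for `f ≈ y` it holds because `m + n ≡ 1` modulo `Q`.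
* The cube averages theorem of the library replaces `T_m` by a projection onto invariant
  functions. The projection preserves positivity and the constants, hence with
  `G_n = 1_A · T_n 1_A` the correlation is at least `(∫ f G_n)² ≥ 2 τ ∫ f G_n - τ²`, and the
  average over `n` of the right-hand side is computed by the mean ergodic theorem.
-/

set_option autoImplicit false
set_option linter.unusedSectionVars false

open Finset Filter Topology MeasureTheory
open scoped ENNReal InnerProductSpace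

namespace Pool.Agent.Results.MP_57adf2_an.PositiveLimit

open Pool.Agent.K7.H83.MA Pool.Agent.H239.MA

/-- A multiplicative measure preserving action. Measurability of the maps and identities between
maps are understood modulo null sets: `T n`, `n ≥ 1`, are measure preserving maps, invertible
modulo null sets, with `T 1 = id` and `T (m n) = T m ∘ T n`. -/
structure MultAction {X : Type*} [MeasurableSpace X] (μ : Measure X) (T : ℕ → X → X) : Prop where
  aem : ∀ n, 0 < n → AEMeasurable (T n) μ
  map : ∀ n, 0 < n → μ.map (T n) = μ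
  inv : ∀ n, 0 < n → ∃ S : X → X, AEMeasurable S μ ∧ μ.map S = μ ∧ (∀ᵐ x ∂μ, S (T n x) = x) ∧
    (∀ᵐ x ∂μ, T n (S x) = x)
  one : ∀ᵐ x ∂μ, T 1 x = x
  mul : ∀ m n, 0 < m → 0 < n → ∀ᵐ x ∂μ, T (m * n) x = T m (T n x)

/-- The action is finitely generated: up to equality almost everywhere, only finitely many maps
occur among the `T p`, `p` prime. -/
def FinGen {X : Type*} [MeasurableSpace X] (μ : Measure X) (T : ℕ → X → X) : Prop :=
  ∃ V : Set (X → X), V.Finite ∧ ∀ p : ℕ, p.Prime → ∃ S ∈ V, T p =ᵐ[μ] S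

/-- The average
`R_N(A) = N⁻² ∑_{m, n ≤ N} μ(A ∩ T_{mn}⁻¹ A ∩ T_{m+n}⁻¹ A ∩ T_m⁻¹ A ∩ T_n⁻¹ A)`. -/
noncomputable def RAv {X : Type*} [MeasurableSpace X] (μ : Measure X) (T : ℕ → X → X) (A : Set X)
    (N : ℕ) : ℝ :=
  1 / (N : ℝ) ^ 2 * ∑ m ∈ Icc 1 N, ∑ n ∈ Icc 1 N,
    μ.real (A ∩ T (m * n) ⁻¹' A ∩ T (m + n) ⁻¹' A ∩ T m ⁻¹' A ∩ T n ⁻¹' A)

/-- a measurable version of an almost everywhere measurable map which preserves the measure -/
theorem exists_mk {X : Type*} [MeasurableSpace X] {μ : Measure X} {S : X → X}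
    (h1 : AEMeasurable S μ) (h2 : μ.map S = μ) :
    ∃ S' : X → X, MeasurePreserving S' μ μ ∧ S' =ᵐ[μ] S :=
  ⟨h1.mk S, ⟨h1.measurable_mk, by rw [← Measure.map_congr h1.ae_eq_mk, h2]⟩, h1.ae_eq_mk.symm⟩

theorem exists_col {X : Type*} [MeasurableSpace X] {μ : Measure X} {T : ℕ → X → X}
    (hT : MultAction μ T) (hfg : FinGen μ T) : ∃ (r : ℕ) (c : ℕ → Fin r) (T' : ℕ → X → X),
      Sys c μ T' ∧ ∀ n, 0 < n → T' n =ᵐ[μ] T n := by
  classical
  -- measurable versions
  have hmk : ∀ n, ∃ S : X → X, 0 < n → MeasurePreserving S μ μ ∧ S =ᵐ[μ] T n := by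
    intro n
    by_cases hn : 0 < n
    · obtain ⟨S, hS1, hS2⟩ := exists_mk (hT.aem n hn) (hT.map n hn)
      exact ⟨S, fun _ => ⟨hS1, hS2⟩⟩
    · exact ⟨T n, fun h => absurd h hn⟩
  choose T' hT' using hmk
  have hmp : ∀ n, 0 < n → MeasurePreserving (T' n) μ μ := fun n hn => (hT' n hn).1
  have hae : ∀ n, 0 < n → T' n =ᵐ[μ] T n := fun n hn => (hT' n hn).2
  -- the colouring
  obtain ⟨V, hV, hVT⟩ := hfg
  have h1 : ∀ p : ℕ, ∃ S : hV.toFinset, p.Prime → T p =ᵐ[μ] (S : X → X) := by
    intro p
    by_cases hp : p.Prime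
    · obtain ⟨S, hS, hTS⟩ := hVT p hp
      exact ⟨⟨S, hV.mem_toFinset.2 hS⟩, fun _ => hTS⟩
    · obtain ⟨S, hS, hTS⟩ := hVT 2 Nat.prime_two
      exact ⟨⟨S, hV.mem_toFinset.2 hS⟩, fun h => absurd h hp⟩
  choose S hS using h1
  refine ⟨hV.toFinset.card, fun p => hV.toFinset.equivFin (S p), T', ⟨hmp, fun n hn => ?_, ?_,
    fun m n hm hn => ?_, fun p q hp hq hpq => ?_⟩, hae⟩
  · obtain ⟨R, hR1, hR2, hR3, hR4⟩ := hT.inv n hn
    obtain ⟨R', hR5, hR6⟩ := exists_mk hR1 hR2
    refine ⟨R', hR5, ?_, ?_⟩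
    · filter_upwards [hae n hn, (hmp n hn).quasiMeasurePreserving.ae hR6, hR3] with x e1 e2 e3
      rw [e2, e1, e3]
    · filter_upwards [hR6, hR5.quasiMeasurePreserving.ae (hae n hn), hR4] with x e1 e2 e3
      rw [e2, e1, e3]
  · filter_upwards [hae 1 one_pos, hT.one] with x e1 e2
    rw [e1, e2]
  · filter_upwards [hae _ (Nat.mul_pos hm hn), hae n hn,
      (hmp n hn).quasiMeasurePreserving.ae (hae m hm), hT.mul m n hm hn] with x e1 e2 e3 e4
    rw [e1, e3, e2, e4]
  · have h2 : S p = S q := hV.toFinset.equivFin.injective hpq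
    have h3 := hS p hp
    rw [h2] at h3
    filter_upwards [hae p hp.pos, hae q hq.pos, h3, hS q hq] with x e1 e2 e3 e4
    rw [e1, e2, e3, e4]

/-- the indicator function -/
noncomputable def ch {X : Type*} (B : Set X) : X → ℝ := B.indicator fun _ => 1

theorem ch_UM {X : Type*} [MeasurableSpace X] {B : Set X} (hB : MeasurableSet B) : UM (ch B) :=
  ⟨measurable_const.indicator hB, fun x => by
    unfold ch; by_cases hx : x ∈ B <;> simp [hx], fun x => by
    unfold ch; by_cases hx : x ∈ B <;> simp [hx]⟩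

theorem ch_inter {X : Type*} (B C : Set X) (x : X) : ch (B ∩ C) x = ch B x * ch C x := by
  unfold ch
  by_cases h1 : x ∈ B <;> by_cases h2 : x ∈ C <;> simp [h1, h2]

theorem It_ch {X : Type*} [MeasurableSpace X] [StandardBorelSpace X] {μ : Measure X}
    [IsProbabilityMeasure μ] {T : ℕ → X → X} {r : ℕ} {c : ℕ → Fin r} (h : Sys c μ T) {B : Set X}
    (hB : MeasurableSet B) {m n : ℕ} (hm : 0 < m) (hn : 0 < n) : It μ T (ch B) m n =
      μ.real (B ∩ T (m * n) ⁻¹' B ∩ T (m + n) ⁻¹' B ∩ T m ⁻¹' B ∩ T n ⁻¹' B) := by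
  have hmn : 0 < m + n := by omega
  have hmn' : 0 < m * n := Nat.mul_pos hm hn
  have ha := ch_UM hB
  unfold It
  rw [ww_cx, koop_cx h hmn ha, mulB_cx (wr_UM h ha hm hn) (ha.comp (h.mp _ hmn).measurable),
    inner_cx ha ((wr_UM h ha hm hn).mul (ha.comp (h.mp _ hmn).measurable)), Complex.ofReal_re]
  have hS : MeasurableSet
      (B ∩ T (m * n) ⁻¹' B ∩ T (m + n) ⁻¹' B ∩ T m ⁻¹' B ∩ T n ⁻¹' B) :=
    ((((hB.inter ((h.mp _ hmn').measurable hB)).inter ((h.mp _ hmn).measurable hB)).inter
      ((h.mp _ hm).measurable hB)).inter ((h.mp _ hn).measurable hB))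
  have h1 : ∫ x, ch (B ∩ T (m * n) ⁻¹' B ∩ T (m + n) ⁻¹' B ∩ T m ⁻¹' B ∩ T n ⁻¹' B) x ∂μ =
      μ.real (B ∩ T (m * n) ⁻¹' B ∩ T (m + n) ⁻¹' B ∩ T m ⁻¹' B ∩ T n ⁻¹' B) := by
    unfold ch
    rw [integral_indicator hS, integral_const]
    simp
  rw [← h1]
  refine integral_congr_ae (Eventually.of_forall fun x => ?_)
  beta_reduce
  rw [ch_inter, ch_inter, ch_inter, ch_inter]
  have h2 : ∀ k, ch (T k ⁻¹' B) x = ch B (T k x) := fun k => rfl
  rw [h2, h2, h2, h2]
  unfold wr
  ring

/-- **Q2, answered in the affirmative.** Let `(X, μ)` be a standard Borel probability space and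
`(T n)` a finitely generated multiplicative measure preserving action on it (sets and maps need
only be measurable modulo null sets, that is, for the completed sigma-algebra). If `μ A > 0`, then
the limit of `R_N(A)` exists and is strictly positive. -/
theorem result {X : Type*} [MeasurableSpace X] [StandardBorelSpace X] (μ : Measure X)
    [IsProbabilityMeasure μ] (T : ℕ → X → X) (hT : MultAction μ T) (hfg : FinGen μ T)
    (A : Set X) (hA : NullMeasurableSet A μ) (hpos : 0 < μ A) :
    ∃ L : ℝ, 0 < L ∧ Tendsto (fun N : ℕ => RAv μ T A N) atTop (𝓝 L) := by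
  classical
  obtain ⟨r, c, T', h, hT'⟩ := exists_col hT hfg
  obtain ⟨B, _, hB, hBA⟩ := hA.exists_measurable_superset_ae_eq
  have ha := ch_UM hB
  have hint : 0 < ∫ x, ch B x ∂μ := by
    have h1 : ∫ x, ch B x ∂μ = μ.real B := by
      unfold ch
      rw [integral_indicator hB, integral_const]
      simp
    rw [h1]
    refine ENNReal.toReal_pos ?_ (measure_ne_top μ B)
    rw [measure_congr hBA]
    exact hpos.ne'
  -- the averages
  have hR : ∀ N : ℕ, RAv μ T A N = ((N : ℝ)⁻¹ * (N : ℝ)⁻¹) *
      ∑ m ∈ Ioc 0 N, ∑ n ∈ Ioc 0 N, It μ T' (ch B) m n := by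
    intro N
    unfold RAv
    have hI : (Icc 1 N : Finset ℕ) = Ioc 0 N := by
      ext k; rw [mem_Icc, mem_Ioc]; omega
    have hN : 1 / (N : ℝ) ^ 2 = (N : ℝ)⁻¹ * (N : ℝ)⁻¹ := by
      rw [one_div, sq, mul_inv]
    rw [hI, hN]
    congr 1
    refine Finset.sum_congr rfl fun m hm => Finset.sum_congr rfl fun n hn => ?_
    rw [mem_Ioc] at hm hn
    rw [It_ch h hB hm.1 hn.1]
    have hp : ∀ k, 0 < k → T k ⁻¹' A =ᵐ[μ] T' k ⁻¹' B := fun k hk => by
      have e1 : T' k ⁻¹' A =ᵐ[μ] T' k ⁻¹' B :=
        (h.mp k hk).quasiMeasurePreserving.preimage_ae_eq hBA.symm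
      refine EventuallyEq.trans ?_ e1
      filter_upwards [hT' k hk] with x hx
      change (T k x ∈ A) = (T' k x ∈ A)
      rw [hx]
    refine measureReal_congr ?_
    exact ((((hBA.symm.inter (hp _ (Nat.mul_pos hm.1 hn.1))).inter (hp _ (by omega))).inter
      (hp _ hm.1)).inter (hp _ hn.1))
  -- existence of the limit
  obtain ⟨V, hV⟩ := SN_conv h ha.bm ha.bm ha.bm (bl μ (cx (ch B)))
  have hlim : Tendsto (fun N : ℕ => RAv μ T A N) atTop (𝓝 (⟪bl μ (cx (ch B)), V⟫_ℂ).re) := by
    have h1 := (Complex.continuous_re.tendsto _).comp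
      ((tendsto_const_nhds (x := bl μ (cx (ch B)))).inner hV)
    refine h1.congr fun N => ?_
    simp only [Function.comp_apply]
    rw [RN_eq, hR]
  -- positivity
  obtain ⟨κ, hκ, hev⟩ := pos_lim h ha hint
  refine ⟨_, hκ.trans_le (ge_of_tendsto hlim ?_), hlim⟩
  filter_upwards [hev] with N hN
  rw [hR]
  exact hN

end Pool.Agent.Results.MP_57adf2_an.PositiveLimit
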